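import Pool.Agent.N821.CS.Stm

/-!
# CS/POS: positivity of the kernel (Sz.-Nagy)
-/

set_option autoImplicit false

namespace Pool.Agent.N596.CS

open Pool.Agent.N821.CS
open scoped InnerProductSpace NNReal Topology

universe u

variable {H : Type u} [NormedAddCommGroup H] [InnerProductSpace ℂ H]

lemma contr (T : CSG H) (t : ℝ≥0) (x : H) : ‖T.op t x‖ ≤ ‖x‖ := by
  calc ‖T.op t x‖ ≤ ‖T.op t‖ * ‖x‖ := (T.op t).le_opNorm x
    _ ≤ 1 * ‖x‖ := mul_le_mul_of_nonneg_right (T.norm_le t) (norm_nonneg x)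
    _ = ‖x‖ := one_mul _

open Classical in
lemma main (T : CSG H) (f : ℝ≥0 → H) (F : Finset ℝ≥0) :
    ∀ a : ℝ≥0, (∀ t ∈ F, a ≤ t) →
      ‖∑ t ∈ F, T.op (t - a) (f t)‖ ^ 2 ≤ (∑ s ∈ F, ∑ t ∈ F, ker T s t (f s) (f t)).re := by
  induction F using Finset.induction_on_min with
  | empty =>
    intro a _
    simp
  | insert b F hb ih =>
    intro a ha
    have hbF : b ∉ F := fun h => lt_irrefl b (hb b h)
    have h1 := ih b (fun t ht => (hb t ht).le)
    obtain ⟨g, hg⟩ : ∃ g, g = ∑ t ∈ F, T.op (t - b) (f t) := ⟨_, rfl⟩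
    rw [← hg] at h1
    have hab : a ≤ b := ha b (Finset.mem_insert_self b F)
    -- the sum
    have h2 : ∑ t ∈ insert b F, T.op (t - a) (f t) = T.op (b - a) (f b + g) := by
      rw [Finset.sum_insert hbF, map_add, hg, map_sum]
      congr 1
      refine Finset.sum_congr rfl fun t ht => ?_
      have h3 : t - a = (b - a) + (t - b) := by
        rw [add_comm]
        exact (tsub_add_tsub_cancel (hb t ht).le hab).symm
      rw [h3, T.add]
      rfl
    -- the quadratic form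
    have h4 : ker T b b (f b) (f b) = ⟪f b, f b⟫_ℂ := by
      unfold ker
      rw [if_pos le_rfl, tsub_self, T.zero]
      rfl
    have h5 : ∑ t ∈ F, ker T b t (f b) (f t) = ⟪f b, g⟫_ℂ := by
      rw [hg, inner_sum]
      refine Finset.sum_congr rfl fun t ht => ?_
      unfold ker
      rw [if_pos (hb t ht).le]
    have h6 : ∑ s ∈ F, ker T s b (f s) (f b) = ⟪g, f b⟫_ℂ := by
      rw [hg, sum_inner]
      refine Finset.sum_congr rfl fun s hs => ?_
      unfold ker
      rw [if_neg (not_le.2 (hb s hs))]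
    have h7 : ∑ s ∈ insert b F, ∑ t ∈ insert b F, ker T s t (f s) (f t) =
        ⟪f b, f b⟫_ℂ + ⟪f b, g⟫_ℂ + (⟪g, f b⟫_ℂ + ∑ s ∈ F, ∑ t ∈ F, ker T s t (f s) (f t)) := by
      rw [Finset.sum_insert hbF, Finset.sum_insert hbF, h4, h5, ← h6, ← Finset.sum_add_distrib]
      congr 1
      refine Finset.sum_congr rfl fun s _ => ?_
      rw [Finset.sum_insert hbF]
    have h8 : ‖f b + g‖ ^ 2 = (⟪f b, f b⟫_ℂ + ⟪f b, g⟫_ℂ + ⟪g, f b⟫_ℂ).re + ‖g‖ ^ 2 := by
      have h9 : (‖f b + g‖ : ℝ) ^ 2 = (⟪f b + g, f b + g⟫_ℂ).re := by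
        rw [← inner_self_eq_norm_sq (𝕜 := ℂ)]
        rfl
      have h10 : (‖g‖ : ℝ) ^ 2 = (⟪g, g⟫_ℂ).re := by
        rw [← inner_self_eq_norm_sq (𝕜 := ℂ)]
        rfl
      rw [h9, h10, inner_add_left, inner_add_right, inner_add_right]
      simp only [Complex.add_re]
      ring
    rw [h2, h7]
    have h11 : ‖T.op (b - a) (f b + g)‖ ^ 2 ≤ ‖f b + g‖ ^ 2 := by
      have := contr T (b - a) (f b + g)
      gcongr
    refine h11.trans ?_
    rw [h8]
    simp only [Complex.add_re] at h1 ⊢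
    linarith

theorem t : S_POS.{u} := by
  intro H _ _ T f
  have h := main T f f.support 0 (fun t _ => bot_le)
  have h1 : (0 : ℝ) ≤ ‖∑ t ∈ f.support, T.op (t - 0) (f t)‖ ^ 2 := by positivity
  exact h1.trans h

end Pool.Agent.N596.CS
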